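import Pool.Agent.Y682.XT.Emb
import Pool.Agent.Y682.XT.Stm2

/-!
# Inert primes in a subfield of a cyclotomic field (job XT-INERT)
-/

set_option autoImplicit false

open NumberField IsCyclotomicExtension.Rat H300.HW

namespace Pool.Agent.Y692.XT

open Pool.Agent.Y682.XT

section

variable (n : ℕ) [NeZero n] (L : Type) [Field L] [NumberField L]
  [IsCyclotomicExtension {n} ℚ L] (F : IntermediateField ℚ L) (p : ℕ) (c : (ZMod n)ˣ)

omit [NeZero n] [IsCyclotomicExtension {n} ℚ L] in
lemma absNorm_p : Ideal.absNorm (Ideal.span {(p : 𝓞 F)}) = p ^ Module.finrank ℚ F := by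
  have h1 : (p : 𝓞 F) = algebraMap ℤ (𝓞 F) p := by simp
  rw [Ideal.absNorm_span_singleton, h1, Algebra.norm_algebraMap, Int.natAbs_pow, Int.natAbs_natCast,
    RingOfIntegers.rank]

omit [NeZero n] [IsCyclotomicExtension {n} ℚ L] in
lemma finite_points_of (k : Type) [Field k] [Finite k] : Finite (𝓞 F →+* k) := by
  refine Finite.of_injective (fun φ : 𝓞 F →+* k => fun i => φ (RingOfIntegers.basis F i)) ?_
  intro φ ψ h
  have h1 : φ.toAddMonoidHom.toIntLinearMap = ψ.toAddMonoidHom.toIntLinearMap := by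
    apply (RingOfIntegers.basis F).ext
    intro i
    exact congrFun h i
  ext x
  exact LinearMap.congr_fun h1 x

include F in
/-- points over a field with `p ^ f` elements -/
lemma mem_of_point (hc : (c : ZMod n) = p) (k : Type) [Field k] [Finite k] {f : ℕ}
    (hk : Nat.card k = p ^ f) : Nonempty (𝓞 F →+* k) ↔ c ^ f ∈ HH n L F := by
  have hgal : IsGalois ℚ L := IsCyclotomicExtension.isGalois {n} ℚ L
  have hcop : (Nat.card k).Coprime n := by
    rw [hk]
    apply Nat.Coprime.pow_left
    rw [← ZMod.isUnit_iff_coprime, ← hc]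
    exact c.isUnit
  have h1 := card_finite_points n L F k hcop
  have h2 : ZMod.unitOfCoprime (Nat.card k) hcop = c ^ f := by
    apply Units.ext
    rw [ZMod.coe_unitOfCoprime, Units.val_pow_eq_pow_val, hc, hk]
    push_cast
    rfl
  rw [h2] at h1
  have h0 : F.fixingSubgroup.index ≠ 0 := Subgroup.index_ne_zero_of_finite
  rw [mem_HH]
  constructor
  · rintro ⟨φ⟩
    by_contra hcon
    have h3 := h1.2 hcon
    have : Finite (𝓞 F →+* k) := finite_points_of L F k
    have h4 : Nonempty (𝓞 F →+* k) := ⟨φ⟩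
    exact Nat.card_pos.ne' h3
  · intro h3
    have h4 := h1.1 h3
    rw [← h4] at h0
    exact (Nat.card_ne_zero.1 h0).1

/-- the order of `c` in the quotient -/
lemma pow_mem_iff (f : ℕ) : c ^ f ∈ HH n L F ↔
    orderOf (QuotientGroup.mk c : (ZMod n)ˣ ⧸ HH n L F) ∣ f := by
  rw [orderOf_dvd_iff_pow_eq_one, ← QuotientGroup.mk_pow, QuotientGroup.eq_one_iff]

lemma card_quot : Nat.card ((ZMod n)ˣ ⧸ HH n L F) = Module.finrank ℚ F := by
  rw [← index_HH n L F]
  rfl

theorem inert_iff (hp : p.Prime) (hc : (c : ZMod n) = p) :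
    (Ideal.span {(p : 𝓞 F)}).IsPrime ↔ ∀ x : (ZMod n)ˣ, ∃ i : ℕ, c ^ i * x⁻¹ ∈ HH n L F := by
  have hfact : Fact p.Prime := ⟨hp⟩
  set Q := (ZMod n)ˣ ⧸ HH n L F with hQ
  set u : Q := QuotientGroup.mk c with hu
  have hd : 0 < Module.finrank ℚ F := Module.finrank_pos
  have hfin : Finite Q := by
    apply Nat.finite_of_card_ne_zero
    rw [card_quot]
    exact hd.ne'
  have hN := absNorm_p L F p
  constructor
  · intro hpr
    have he : orderOf u ≠ 0 := (orderOf_pos u).ne'
    have hcard : Nat.card (GaloisField p (orderOf u)) = p ^ orderOf u := GaloisField.card p _ he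
    have : Finite (GaloisField p (orderOf u)) := by
      apply Nat.finite_of_card_ne_zero
      rw [hcard]
      exact pow_ne_zero _ hp.ne_zero
    obtain ⟨φ⟩ := (mem_of_point n L F p c hc (GaloisField p (orderOf u)) hcard).2
      ((pow_mem_iff n L F c _).2 dvd_rfl)
    have hmax : (Ideal.span {(p : 𝓞 F)}).IsMaximal := by
      apply hpr.isMaximal
      rw [Ne, Ideal.span_singleton_eq_bot]
      exact_mod_cast hp.ne_zero
    have hker : Ideal.span {(p : 𝓞 F)} = RingHom.ker φ := by
      apply hmax.eq_of_le (RingHom.ker_ne_top φ)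
      rw [Ideal.span_singleton_le_iff_mem, RingHom.mem_ker, map_natCast]
      have : CharP (GaloisField p (orderOf u)) p := inferInstance
      exact CharP.cast_eq_zero _ p
    have h1 : p ^ Module.finrank ℚ F ≤ p ^ orderOf u := by
      rw [← hN, ← hcard, hker, Ideal.absNorm_apply, Submodule.cardQuot_apply]
      exact Nat.card_le_card_of_injective _ (RingHom.kerLift_injective φ)
    have h2 : Module.finrank ℚ F ≤ orderOf u := (Nat.pow_le_pow_iff_right hp.one_lt).1 h1
    have h3 : Nat.card (Subgroup.zpowers u) = Nat.card Q := by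
      apply le_antisymm (Nat.card_le_card_of_injective _ Subtype.val_injective)
      rw [Nat.card_zpowers, card_quot]
      exact h2
    have h4 : Subgroup.zpowers u = ⊤ := Subgroup.eq_top_of_card_eq _ h3
    intro x
    have h5 : (QuotientGroup.mk x : Q) ∈ Subgroup.zpowers u := by rw [h4]; trivial
    rw [← mem_powers_iff_mem_zpowers] at h5
    obtain ⟨i, hi⟩ := h5
    refine ⟨i, ?_⟩
    rw [← QuotientGroup.eq_one_iff, QuotientGroup.mk_mul, QuotientGroup.mk_pow,
      QuotientGroup.mk_inv, ← hi]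
    simp [hu]
  · intro hgen
    have h4 : orderOf u = Module.finrank ℚ F := by
      rw [← card_quot n L F, ← Nat.card_zpowers]
      have h4 : Subgroup.zpowers u = ⊤ := by
        rw [eq_top_iff]
        intro y _
        obtain ⟨x, rfl⟩ := QuotientGroup.mk_surjective y
        obtain ⟨i, hi⟩ := hgen x
        rw [← QuotientGroup.eq_one_iff, QuotientGroup.mk_mul, QuotientGroup.mk_pow,
          QuotientGroup.mk_inv, mul_inv_eq_one] at hi
        rw [← hi]
        exact Subgroup.npow_mem_zpowers _ _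
      rw [h4]
      exact Nat.card_congr Subgroup.topEquiv.toEquiv
    have htop : Ideal.span {(p : 𝓞 F)} ≠ ⊤ := by
      intro h
      rw [h, Ideal.absNorm_top] at hN
      exact (Nat.one_lt_pow hd.ne' hp.one_lt).ne hN
    obtain ⟨v, hv, hle⟩ := Ideal.exists_le_maximal _ htop
    have hv0 : v ≠ ⊥ := by
      rintro rfl
      rw [le_bot_iff, Ideal.span_singleton_eq_bot] at hle
      exact hp.ne_zero (by exact_mod_cast hle)
    have hdvd : Ideal.absNorm v ∣ p ^ Module.finrank ℚ F := by
      rw [← hN]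
      exact Ideal.absNorm_dvd_absNorm_of_le hle
    obtain ⟨f, hf, hvf⟩ := (Nat.dvd_prime_pow hp).1 hdvd
    let : Field (𝓞 F ⧸ v) := Ideal.Quotient.field v
    have hcard : Nat.card (𝓞 F ⧸ v) = p ^ f := by
      rw [← hvf, Ideal.absNorm_apply, Submodule.cardQuot_apply]
    have : Finite (𝓞 F ⧸ v) := by
      apply Nat.finite_of_card_ne_zero
      rw [hcard]
      exact pow_ne_zero _ hp.ne_zero
    have h5 := (mem_of_point n L F p c hc (𝓞 F ⧸ v) hcard).1 ⟨Ideal.Quotient.mk v⟩
    rw [pow_mem_iff] at h5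
    have hf0 : 0 < f := by
      by_contra hcon
      have hf0 : f = 0 := by omega
      rw [hf0, pow_zero, Ideal.absNorm_eq_one_iff] at hvf
      exact hv.ne_top hvf
    have h6 : Module.finrank ℚ F ≤ f := by
      rw [← h4]
      exact Nat.le_of_dvd hf0 h5
    have h7 : f = Module.finrank ℚ F := le_antisymm hf h6
    have h8 : Ideal.span {(p : 𝓞 F)} = v := by
      obtain ⟨J, hJ⟩ := Ideal.dvd_iff_le.2 hle
      have h9 := congrArg Ideal.absNorm hJ
      rw [map_mul, hN, hvf, h7] at h9
      have h10 : Ideal.absNorm J = 1 := by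
        have h11 : 0 < p ^ Module.finrank ℚ F := pow_pos hp.pos _
        exact (Nat.eq_of_mul_eq_mul_left h11 (by rw [mul_one]; exact h9)).symm
      rw [Ideal.absNorm_eq_one_iff] at h10
      rw [hJ, h10, Ideal.mul_top]
    rw [h8]
    exact hv.isPrime

end

theorem inert : S_INERT := by
  intro n _ L _ _ _ F p c hp hc
  exact inert_iff n L F p c hp hc

end Pool.Agent.Y692.XT
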