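import Pool.Agent.Y682.XT.Hsm
import Pool.Agent.Y682.XT.Stm2

/-!
# The signs of the cyclotomic units of level `3 ^ n` (job XT-THREE)
-/

set_option autoImplicit false

open Finset

namespace Pool.Agent.Y692.XT

open Pool.Agent.Y682.XT

open scoped Classical

/-- the unit `2` -/
lemma coprime_two (n : ℕ) : Nat.Coprime 2 (3 ^ n) := Nat.Coprime.pow_right n (by norm_num)

/-- the unit `2` modulo `3 ^ n` -/
noncomputable def t2 (n : ℕ) : (ZMod (3 ^ n))ˣ := ZMod.unitOfCoprime 2 (coprime_two n)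

lemma t2_val (n : ℕ) : ((t2 n : (ZMod (3 ^ n))ˣ) : ZMod (3 ^ n)) = 2 := by
  rw [t2, ZMod.coe_unitOfCoprime]; norm_num

lemma order_sq (m : ℕ) : orderOf (t2 (m + 1) ^ 2) = 3 ^ m := by
  rw [← orderOf_units]
  have h := ZMod.orderOf_one_add_prime Nat.prime_three (by norm_num) m
  rw [← h]
  congr 1
  rw [Units.val_pow_eq_pow_val, t2_val]
  push_cast
  norm_num

/-- reduction modulo `3` -/
noncomputable def rho (m : ℕ) : ZMod (3 ^ (m + 1)) →+* ZMod 3 :=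
  ZMod.castHom (dvd_pow_self 3 (Nat.succ_ne_zero m)) (ZMod 3)

lemma two_dvd_order (m : ℕ) : 2 ∣ orderOf (t2 (m + 1)) := by
  have h1 : t2 (m + 1) ^ orderOf (t2 (m + 1)) = 1 := pow_orderOf_eq_one _
  have h2 : (2 : ZMod (3 ^ (m + 1))) ^ orderOf (t2 (m + 1)) = 1 := by
    have h := congrArg (Units.val) h1
    rw [Units.val_pow_eq_pow_val, t2_val, Units.val_one] at h
    exact h
  have h3 : (2 : ZMod 3) ^ orderOf (t2 (m + 1)) = 1 := by
    have h := congrArg (rho m) h2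
    rw [map_pow, map_one, map_ofNat] at h
    exact h
  by_contra hodd
  have ho : Odd (orderOf (t2 (m + 1))) := Nat.not_even_iff_odd.1 fun h => hodd h.two_dvd
  obtain ⟨c, hc⟩ := ho
  rw [hc, pow_add, pow_mul] at h3
  have h4 : (2 : ZMod 3) ^ 2 = 1 := by decide
  rw [h4, one_pow, one_mul] at h3
  revert h3
  decide

lemma order_t2 (m : ℕ) : orderOf (t2 (m + 1)) = 2 * 3 ^ m := by
  have h1 := orderOf_pow_of_dvd (x := t2 (m + 1)) (n := 2) (by norm_num) (two_dvd_order m)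
  rw [order_sq] at h1
  obtain ⟨c, hc⟩ := two_dvd_order m
  omega

lemma gen (m : ℕ) (u : (ZMod (3 ^ (m + 1)))ˣ) : ∃ a : ℕ, t2 (m + 1) ^ a = u := by
  have h1 : Nat.card (Subgroup.zpowers (t2 (m + 1))) = Nat.card (ZMod (3 ^ (m + 1)))ˣ := by
    rw [Nat.card_zpowers, order_t2, Nat.card_eq_fintype_card, ZMod.card_units_eq_totient,
      Nat.totient_prime_pow Nat.prime_three (Nat.succ_pos m)]
    simp [mul_comm]
  have h2 : Subgroup.zpowers (t2 (m + 1)) = ⊤ := Subgroup.eq_top_of_card_eq _ h1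
  have h3 : u ∈ Subgroup.zpowers (t2 (m + 1)) := by rw [h2]; trivial
  rw [← mem_powers_iff_mem_zpowers] at h3
  obtain ⟨a, ha⟩ := h3
  exact ⟨a, ha⟩

lemma one_ne_neg (m : ℕ) : (1 : (ZMod (3 ^ (m + 1)))ˣ) ≠ -1 := by
  intro h
  have h7 := congrArg Units.val h
  rw [Units.val_neg, Units.val_one] at h7
  have h8 := congrArg (rho m) h7
  rw [map_neg, map_one] at h8
  revert h8
  decide

/-- `2 ^ (3 ^ m) = - 1` modulo `3 ^ (m + 1)` -/
lemma t2_pow (m : ℕ) : t2 (m + 1) ^ (3 ^ m) = -1 := by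
  obtain ⟨a, ha⟩ := gen m (-1)
  have h1 : t2 (m + 1) ^ (2 * a) = 1 := by
    rw [mul_comm, pow_mul, ha]
    simp
  have h2 := orderOf_dvd_of_pow_eq_one h1
  rw [order_t2] at h2
  have h3 : 3 ^ m ∣ a := (Nat.mul_dvd_mul_iff_left (by norm_num)).1 h2
  obtain ⟨b, hb⟩ := h3
  have h4 : (t2 (m + 1) ^ (3 ^ m)) ^ b = -1 := by rw [← pow_mul, ← hb, ha]
  have h5 : (t2 (m + 1) ^ (3 ^ m)) ^ 2 = 1 := by
    have h := pow_orderOf_eq_one (t2 (m + 1))
    rw [order_t2] at h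
    rw [← pow_mul, mul_comm]
    exact h
  rcases Nat.even_or_odd' b with ⟨c, rfl | rfl⟩
  · rw [pow_mul, h5, one_pow] at h4
    exact absurd h4 (one_ne_neg m)
  · rw [pow_succ (t2 (m + 1) ^ (3 ^ m)) (2 * c), pow_mul, h5, one_pow, one_mul] at h4
    exact h4

/-! ### Characters -/

section

variable {k : Type} [Field k] [CharP k 2]

lemma even_of {M : ℕ} {ψ : (ZMod M)ˣ →* k} : ∀ x, ψ (-x) = ψ x := by
  have h1 : ψ (-1) = 1 := by
    have h2 : ψ (-1) ^ 2 = 1 := by rw [← map_pow]; simp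
    have h3 : (ψ (-1) - 1) ^ 2 = 0 := by
      have h4 : (2 : k) = 0 := CharTwo.two_eq_zero
      linear_combination h2 - (ψ (-1) - 1) * h4
    exact sub_eq_zero.1 (pow_eq_zero_iff (by norm_num) |>.1 h3)
  intro x
  rw [← neg_one_mul, map_mul, h1, one_mul]

/-- the sum `S_i` -/
noncomputable def SS {M : ℕ} [NeZero M] (ψ : (ZMod M)ˣ →* k) (i : ℕ) : k :=
  ∑ z ∈ PU M, ψ z ^ i * c2 k (oo (z : ZMod M))

lemma c2_sq (x : ZMod 2) : c2 k x ^ 2 = c2 k x := by
  rw [← map_pow]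
  congr 1
  revert x
  decide

lemma SS_sq {M : ℕ} [NeZero M] (ψ : (ZMod M)ˣ →* k) (i : ℕ) : SS ψ (i * 2) = SS ψ i ^ 2 := by
  unfold SS
  rw [CharTwo.sum_sq]
  refine sum_congr rfl fun z _ => ?_
  rw [mul_pow, c2_sq, pow_mul]

lemma SS_pow {M : ℕ} [NeZero M] (ψ : (ZMod M)ˣ →* k) (h : SS ψ 1 = 0) (r : ℕ) : SS ψ (2 ^ r) = 0 := by
  induction r with
  | zero => exact h
  | succ r ih => rw [pow_succ, SS_sq, ih]; norm_num

lemma psi_pow (m : ℕ) (ψ : (ZMod (3 ^ (m + 1)))ˣ →* k) (z : (ZMod (3 ^ (m + 1)))ˣ) :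
    ψ z ^ (3 ^ m) = 1 := by
  obtain ⟨a, rfl⟩ := gen m z
  rw [← map_pow, ← pow_mul, mul_comm, pow_mul, t2_pow, map_pow]
  have : ψ (-1) = 1 := by rw [even_of, map_one]
  rw [this, one_pow]

lemma psi_pow_congr (m : ℕ) (ψ : (ZMod (3 ^ (m + 1)))ˣ →* k) (z : (ZMod (3 ^ (m + 1)))ˣ)
    {a b : ℕ} (h : a ≡ b [MOD 3 ^ m]) : ψ z ^ a = ψ z ^ b := by
  have h1 : ∀ c : ℕ, ψ z ^ c = ψ z ^ (c % 3 ^ m) := by
    intro c
    conv_lhs => rw [← Nat.div_add_mod c (3 ^ m), pow_add, pow_mul, psi_pow, one_pow, one_mul]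
  rw [h1 a, h1 b, h]

lemma SS_all (m : ℕ) (ψ : (ZMod (3 ^ (m + 1)))ˣ →* k) (h : SS ψ 1 = 0) {i : ℕ}
    (hi : ¬ 3 ∣ i) : SS ψ i = 0 := by
  have hc : Nat.Coprime i (3 ^ (m + 1)) :=
    Nat.Coprime.pow_right _ (((Nat.prime_three.coprime_iff_not_dvd).2 hi).symm)
  obtain ⟨a, ha⟩ := gen m (ZMod.unitOfCoprime i hc)
  have h2 : (2 : ZMod (3 ^ (m + 1))) ^ a = i := by
    have h := congrArg Units.val ha
    rw [Units.val_pow_eq_pow_val, t2_val, ZMod.coe_unitOfCoprime] at h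
    exact h
  have h3 : (2 ^ a) ≡ i [MOD 3 ^ (m + 1)] := by
    rw [← ZMod.natCast_eq_natCast_iff]
    push_cast
    exact h2
  have h4 : (2 ^ a) ≡ i [MOD 3 ^ m] := h3.of_dvd (pow_dvd_pow 3 (Nat.le_succ m))
  rw [← SS_pow ψ h a]
  unfold SS
  exact sum_congr rfl fun z _ => by rw [psi_pow_congr m ψ z h4]

/-- the unit `1 + 3 ^ (m + 1)` modulo `3 ^ (m + 2)` -/
noncomputable def kap (m : ℕ) : (ZMod (3 ^ (m + 2)))ˣ :=
  ZMod.unitOfCoprime (1 + 3 ^ (m + 1)) (by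
    apply Nat.Coprime.pow_right
    rw [pow_succ, Nat.coprime_add_mul_right_left]
    norm_num)

lemma kap_val (m : ℕ) : ((kap m : (ZMod (3 ^ (m + 2)))ˣ) : ZMod (3 ^ (m + 2))) =
    ((1 + 3 ^ (m + 1) : ℕ) : ZMod (3 ^ (m + 2))) := by
  rw [kap, ZMod.coe_unitOfCoprime]

lemma kap_val_val (m : ℕ) : ((kap m : (ZMod (3 ^ (m + 2)))ˣ) : ZMod (3 ^ (m + 2))).val =
    1 + 3 ^ (m + 1) := by
  rw [kap_val, ZMod.val_natCast, Nat.mod_eq_of_lt]
  have h1 : 1 < 3 ^ (m + 1) := Nat.one_lt_pow (Nat.succ_ne_zero m) (by norm_num)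
  have h2 : 3 ^ (m + 2) = 3 * 3 ^ (m + 1) := by ring
  omega

lemma kap_pow (m c : ℕ) : ((kap m ^ c : (ZMod (3 ^ (m + 2)))ˣ) : ZMod (3 ^ (m + 2))) =
    ((1 + c * 3 ^ (m + 1) : ℕ) : ZMod (3 ^ (m + 2))) := by
  have h0 : ((3 ^ (m + 1) * 3 ^ (m + 1) : ℕ) : ZMod (3 ^ (m + 2))) = 0 := by
    rw [ZMod.natCast_eq_zero_iff, ← pow_add]
    exact pow_dvd_pow 3 (by omega)
  push_cast at h0
  induction c with
  | zero => simp
  | succ c ih =>
    rw [pow_succ (kap m) c, Units.val_mul, ih, kap_val]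
    push_cast
    linear_combination (c : ZMod (3 ^ (m + 2))) * h0

lemma kap_cube (m : ℕ) : kap m ^ 3 = 1 := by
  apply Units.ext
  rw [kap_pow, Units.val_one]
  have h0 : ((3 * 3 ^ (m + 1) : ℕ) : ZMod (3 ^ (m + 2))) = 0 := by
    rw [ZMod.natCast_eq_zero_iff, ← pow_succ']
  rw [Nat.cast_add, h0]
  simp

/-- the characters which are nontrivial at `kap` are injective up to sign -/
lemma psi_inj (m : ℕ) (ψ : (ZMod (3 ^ (m + 2)))ˣ →* k) (hk : ψ (kap m) ≠ 1)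
    {x y : (ZMod (3 ^ (m + 2)))ˣ} (h : ψ x = ψ y) : x = y ∨ x = -y := by
  have hord : orderOf (ψ (t2 (m + 2))) = 3 ^ (m + 1) := by
    have h1 : ψ (t2 (m + 2)) ^ (3 ^ (m + 1)) = 1 := psi_pow (m + 1) ψ _
    refine orderOf_eq_prime_pow ?_ h1
    intro h2
    apply hk
    obtain ⟨a, ha⟩ := gen (m + 1) (kap m)
    have h3 : t2 (m + 2) ^ (3 * a) = 1 := by
      rw [mul_comm, pow_mul, ha, kap_cube]
    have h4 := orderOf_dvd_of_pow_eq_one h3
    rw [order_t2, pow_succ] at h4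
    have h5 : 3 ^ m ∣ a := by
      have h6 : 3 * (2 * 3 ^ m) ∣ 3 * a := by
        rw [show 3 * (2 * 3 ^ m) = 2 * (3 ^ m * 3) by ring]; exact h4
      exact (Dvd.intro_left 2 rfl).trans ((Nat.mul_dvd_mul_iff_left (by norm_num)).1 h6)
    obtain ⟨b, rfl⟩ := h5
    rw [← ha, map_pow, pow_mul, h2, one_pow]
  obtain ⟨a, rfl⟩ := gen (m + 1) x
  obtain ⟨b, rfl⟩ := gen (m + 1) y
  have h : a ≡ b [MOD 3 ^ (m + 1)] := by
    have h1 : ψ.toHomUnits (t2 (m + 2)) ^ a = ψ.toHomUnits (t2 (m + 2)) ^ b := by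
      apply Units.ext
      rw [← map_pow, ← map_pow, MonoidHom.coe_toHomUnits, MonoidHom.coe_toHomUnits]
      exact h
    rw [pow_eq_pow_iff_modEq, ← orderOf_units, MonoidHom.coe_toHomUnits, hord] at h1
    exact h1
  have h6 : t2 (m + 2) ^ (2 * a) = t2 (m + 2) ^ (2 * b) := by
    rw [pow_eq_pow_iff_modEq, order_t2]
    exact Nat.ModEq.mul_left' 2 h
  have h7 : ((t2 (m + 2) ^ a * (t2 (m + 2) ^ b)⁻¹) : (ZMod (3 ^ (m + 2)))ˣ) ^ 2 = 1 := by
    rw [mul_pow, inv_pow, ← pow_mul, ← pow_mul, mul_comm a, mul_comm b, h6, mul_inv_cancel]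
  set u := t2 (m + 2) ^ a * (t2 (m + 2) ^ b)⁻¹ with hu
  obtain ⟨c, hc⟩ := gen (m + 1) u
  have h8 : 3 ^ (m + 1) ∣ c := by
    rw [← hc, ← pow_mul] at h7
    have h9 := orderOf_dvd_of_pow_eq_one h7
    rw [order_t2, mul_comm c] at h9
    exact (Nat.mul_dvd_mul_iff_left (by norm_num)).1 h9
  obtain ⟨d, rfl⟩ := h8
  rw [pow_mul, t2_pow] at hc
  rcases Nat.even_or_odd d with hd | hd
  · left
    rw [hd.neg_one_pow] at hc
    exact (mul_inv_eq_one.1 hc.symm)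
  · right
    rw [hd.neg_one_pow] at hc
    have := hc.symm
    rw [hu, mul_inv_eq_iff_eq_mul] at this
    rw [this, neg_one_mul]

/-- the even function -/
noncomputable def ww {M : ℕ} [NeZero M] (z : (ZMod M)ˣ) : ZMod 2 :=
  if z ∈ PU M then oo (z : ZMod M) else oo ((-z : (ZMod M)ˣ) : ZMod M)

lemma ww_neg {M : ℕ} [NeZero M] (hM : Odd M) (h1 : 1 < M) (z : (ZMod M)ˣ) : ww (-z) = ww z := by
  unfold ww
  by_cases h : z ∈ PU M
  · rw [if_pos h, if_neg ((isH_PU hM h1).neg z h), neg_neg]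
  · rw [if_neg h, if_pos (((isH_PU hM h1).mem z).resolve_left h)]

lemma odd_pow (m : ℕ) : Odd (3 ^ m) := Odd.pow (by decide)

lemma one_lt_pow3 (m : ℕ) : 1 < 3 ^ (m + 1) := Nat.one_lt_pow (Nat.succ_ne_zero m) (by norm_num)

theorem main_case (m : ℕ) (ψ : (ZMod (3 ^ (m + 2)))ˣ →* k) (hk : ψ (kap m) ≠ 1) :
    SS ψ 1 ≠ 0 := by
  intro hS
  have hM : Odd (3 ^ (m + 2)) := odd_pow _
  have h1 : 1 < 3 ^ (m + 2) := one_lt_pow3 (m + 1)
  -- the sums of the even function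
  have hw1 : ∀ i : ℕ, ∑ z ∈ PU (3 ^ (m + 2)), ψ z ^ i * c2 k (ww z) = SS ψ i := by
    intro i
    unfold SS ww
    exact sum_congr rfl fun z hz => by rw [if_pos hz]
  have hw2 : ∀ i : ℕ, ψ (kap m) ^ i * ∑ z ∈ PU (3 ^ (m + 2)), ψ z ^ i * c2 k (ww (kap m * z)) =
      SS ψ i := by
    intro i
    have h2 := (isH_PU hM h1).sum_equiv (Equiv.mulLeft (kap m)) (fun x => mul_neg (kap m) x)
      (fun z => ψ z ^ i * c2 k (ww z)) (fun x => by rw [even_of, ww_neg hM h1])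
    rw [← hw1 i, mul_sum, ← h2]
    refine sum_congr rfl fun z _ => ?_
    rw [Equiv.coe_mulLeft, map_mul, mul_pow]
    ring
  have hz : ∀ i : ℕ, ∑ z ∈ PU (3 ^ (m + 2)), ψ z ^ i * c2 k (ww (kap m * z) - ww z) = 0 := by
    intro i
    have h2 : ∑ z ∈ PU (3 ^ (m + 2)), ψ z ^ i * c2 k (ww (kap m * z) - ww z) =
        ∑ z ∈ PU (3 ^ (m + 2)), ψ z ^ i * c2 k (ww (kap m * z)) - SS ψ i := by
      rw [← hw1 i, ← sum_sub_distrib]
      refine sum_congr rfl fun z _ => ?_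
      rw [map_sub, mul_sub]
    rw [h2]
    by_cases hi : 3 ∣ i
    · obtain ⟨j, rfl⟩ := hi
      have h3 := hw2 (3 * j)
      rw [pow_mul, ← map_pow, kap_cube, map_one, one_pow, one_mul] at h3
      rw [h3, sub_self]
    · have h3 := SS_all (m + 1) ψ hS hi
      have h4 := hw2 i
      rw [h3] at h4
      have h5 : ψ (kap m) ≠ 0 := by
        intro h6
        have h7 : ψ (kap m) * ψ (kap m)⁻¹ = 1 := by rw [← map_mul, mul_inv_cancel, map_one]
        rw [h6, zero_mul] at h7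
        exact zero_ne_one h7
      rw [(mul_eq_zero.1 h4).resolve_left (pow_ne_zero _ h5), h3, sub_self]
  -- independence
  have hli := linearIndependent_monoidHom (Multiplicative ℕ) k
  have hinj : Function.Injective (fun z : {z // z ∈ PU (3 ^ (m + 2))} => powersHom k (ψ z.1)) := by
    intro x y hxy
    have h2 : ψ x.1 = ψ y.1 := (powersHom k).injective hxy
    rcases psi_inj m ψ hk h2 with h3 | h3
    · exact Subtype.ext h3
    · exfalso
      have h4 := (isH_PU hM h1).neg y.1 y.2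
      rw [← h3] at h4
      exact h4 x.2
  have hli2 := hli.comp _ hinj
  rw [Fintype.linearIndependent_iff] at hli2
  have h2 := hli2 (fun z => c2 k (ww (kap m * z.1) - ww z.1)) (by
    funext i
    rw [Finset.sum_apply]
    simp only [Pi.smul_apply, smul_eq_mul, Function.comp_apply, Pi.zero_apply]
    rw [← hz (Multiplicative.toAdd i), ← Finset.sum_attach (PU (3 ^ (m + 2)))]
    refine sum_congr rfl fun z _ => ?_
    rw [powersHom_apply, mul_comm])
  have hv1 : ((1 : (ZMod (3 ^ (m + 2)))ˣ) : ZMod (3 ^ (m + 2))).val = 1 := by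
    rw [Units.val_one, ZMod.val_one_eq_one_mod, Nat.mod_eq_of_lt h1]
  have e1 : 3 ^ (m + 2) = 3 * 3 ^ (m + 1) := by ring
  have e2 := one_lt_pow3 m
  have hp1 : (1 : (ZMod (3 ^ (m + 2)))ˣ) ∈ PU (3 ^ (m + 2)) := by
    rw [mem_PU, hv1]; omega
  have hpk : kap m ∈ PU (3 ^ (m + 2)) := by
    rw [mem_PU, kap_val_val]; omega
  have h3 := h2 ⟨1, hp1⟩
  simp only [mul_one] at h3
  have h4 : ww (kap m) = 0 := by
    unfold ww oo
    rw [if_pos hpk, kap_val_val, ZMod.natCast_eq_zero_iff_even]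
    exact Odd.add_odd odd_one (odd_pow _)
  have h5 : ww (1 : (ZMod (3 ^ (m + 2)))ˣ) = 1 := by
    unfold ww oo
    rw [if_pos hp1, hv1]
    rfl
  rw [h4, h5] at h3
  have h6 : c2 k (0 - 1) = 1 := by
    have : (0 - 1 : ZMod 2) = 1 := by decide
    rw [this, map_one]
  rw [h6] at h3
  exact one_ne_zero h3

omit [CharP k 2] in
/-- characters of level `3 ^ (m + 1)` -/
lemma factor (m : ℕ) (ψ : (ZMod (3 ^ (m + 2)))ˣ →* k) (hk : ψ (kap m) = 1)
    (hf : 3 ^ (m + 1) ∣ 3 ^ (m + 2)) :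
    ∃ ψ' : (ZMod (3 ^ (m + 1)))ˣ →* k, ψ'.comp (ZMod.unitsMap hf) = ψ := by
  have hsurj : Function.Surjective (ZMod.unitsMap hf) := ZMod.unitsMap_surjective _
  have hker : (ZMod.unitsMap hf).ker ≤ ψ.toHomUnits.ker := by
    intro u hu
    rw [MonoidHom.mem_ker] at hu ⊢
    have h1 := congrArg Units.val hu
    rw [ZMod.unitsMap_val, Units.val_one] at h1
    have h2 : (((u : ZMod (3 ^ (m + 2))).val : ℕ) : ZMod (3 ^ (m + 1))) = 1 := by
      rw [ZMod.natCast_val]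
      exact h1
    have h3 : ((3 ^ (m + 1) : ℕ) : ℤ) ∣ ((u : ZMod (3 ^ (m + 2))).val : ℤ) - 1 := by
      rw [← ZMod.intCast_zmod_eq_zero_iff_dvd]
      push_cast
      rw [h2, sub_self]
    have h4 : 0 < (u : ZMod (3 ^ (m + 2))).val :=
      Nat.pos_of_ne_zero (fun h => unit_ne (one_lt_pow3 (m + 1)) u ((ZMod.val_eq_zero _).1 h))
    obtain ⟨c, hc⟩ := h3
    have hc0 : 0 ≤ c := by
      by_contra hcon
      push Not at hcon
      have h5 : (0 : ℤ) < (3 ^ (m + 1) : ℕ) := by positivity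
      nlinarith
    lift c to ℕ using hc0
    have h5 : (u : ZMod (3 ^ (m + 2))).val = 1 + c * 3 ^ (m + 1) := by
      have : ((u : ZMod (3 ^ (m + 2))).val : ℤ) = ((1 + c * 3 ^ (m + 1) : ℕ) : ℤ) := by
        push_cast
        push_cast at hc
        linear_combination hc
      exact_mod_cast this
    have h6 : u = kap m ^ c := by
      apply Units.ext
      rw [kap_pow, ← h5, ZMod.natCast_zmod_val]
    apply Units.ext
    rw [MonoidHom.coe_toHomUnits, h6, map_pow, hk, one_pow, Units.val_one]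
  refine ⟨(Units.coeHom k).comp ((MonoidHom.liftOfSurjective _ hsurj) ⟨ψ.toHomUnits, hker⟩), ?_⟩
  ext u
  have h7 := MonoidHom.liftOfRightInverse_comp_apply (ZMod.unitsMap hf) _
    (Function.rightInverse_surjInv hsurj) ⟨ψ.toHomUnits, hker⟩ u
  exact congrArg Units.val h7

lemma mem_PU_one {z : (ZMod (3 ^ 1))ˣ} (hz : z ∈ PU (3 ^ 1)) : z = 1 := by
  rw [mem_PU] at hz
  have h1 := unit_ne (one_lt_pow3 0) z
  have h2 : (z : ZMod (3 ^ (0 + 1))).val ≠ 0 := fun h => h1 ((ZMod.val_eq_zero _).1 h)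
  apply Units.ext
  apply ZMod.val_injective
  have h3 : (z : ZMod (3 ^ 1)).val = 1 := by
    have h4 : (z : ZMod (3 ^ 1)).val ≠ 0 := h2
    omega
  rw [h3]
  rfl

theorem three_TT (n : ℕ) : ∀ ψ : (ZMod (3 ^ n))ˣ →* k, ψ ≠ 1 → TT ψ (t2 n) ≠ 0 := by
  induction n with
  | zero =>
    intro ψ hψ
    exfalso
    apply hψ
    ext u
    have : u = 1 := by
      apply Units.ext
      have : Subsingleton (ZMod (3 ^ 0)) := by
        rw [pow_zero]
        infer_instance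
      exact Subsingleton.elim _ _
    rw [this, map_one, map_one]
  | succ n ih =>
    intro ψ hψ
    obtain _ | m := n
    · exfalso
      apply hψ
      ext u
      rw [MonoidHom.one_apply]
      rcases (isH_PU (odd_pow 1) (one_lt_pow3 0)).mem u with h | h
      · rw [mem_PU_one h, map_one]
      · rw [← even_of, mem_PU_one h, map_one]
    · by_cases hk : ψ (kap m) = 1
      · have hf : 3 ^ (m + 1) ∣ 3 ^ (m + 2) := pow_dvd_pow 3 (Nat.le_succ (m + 1))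
        obtain ⟨ψ', rfl⟩ := factor m ψ hk hf
        have hs : ∀ p : ℕ, p.Prime → p ∣ 3 ^ (m + 2) → p ∣ 3 ^ (m + 1) := by
          intro p hp hd
          rw [(Nat.prime_dvd_prime_iff_eq hp Nat.prime_three).1 (hp.dvd_of_dvd_pow hd)]
          exact dvd_pow_self 3 (Nat.succ_ne_zero m)
        rw [TT_level hf hs (odd_pow _) (one_lt_pow3 m) ψ' even_of]
        have h2 : ZMod.unitsMap hf (t2 (m + 1 + 1)) = t2 (m + 1) := by
          apply Units.ext
          rw [ZMod.unitsMap_val, t2_val, t2_val]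
          have : ((2 : ZMod (3 ^ (m + 1 + 1))).cast : ZMod (3 ^ (m + 1))) =
            ZMod.castHom hf (ZMod (3 ^ (m + 1))) 2 := rfl
          rw [this, map_ofNat]
        rw [h2]
        apply ih
        rintro rfl
        apply hψ
        ext u
        rfl
      · rw [TT_two (t2_val _)]
        have h := main_case m ψ hk
        unfold SS at h
        simpa only [pow_one] using h

end

theorem three : S_THREE := by
  intro n k _ _ ψ _ h
  have h1 := three_TT n ψ h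
  rw [TT_two (t2_val n)] at h1
  intro h0
  apply h1
  rw [← h0]
  refine sum_congr rfl fun z _ => ?_
  congr 1
  unfold oo c2
  rw [map_natCast]

end Pool.Agent.Y692.XT
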